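import Pool.Agent.helper47.SPI.Spec

/-!
# Row RRB: the trivial bound for `RR`
-/

set_option autoImplicit false

namespace Pool.Agent.SPI

open Finset Pool.Agent.helper85.PG

private theorem RRB_norm {p : ℕ} [Fact p.Prime] (χ : MulChar (ZMod p) ℂ) (a : ZMod p) : ‖χ a‖ ≤ 1 :=
  DirichletCharacter.norm_le_one χ a

private theorem RRB_cr {p : ℕ} [Fact p.Prime] (χ : MulChar (ZMod p) ℂ) (h : ℕ) (s u : ZMod p) :
    cr χ h s u ≤ h := by
  unfold cr
  refine (norm_sum_le _ _).trans ?_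
  have h1 : ∀ x ∈ range h, ‖χ (s + (x : ZMod p)) * (starRingEnd ℂ) (χ (s + u + (x : ZMod p)))‖ ≤ 1 := by
    intro x _
    rw [norm_mul, RCLike.norm_conj]
    calc ‖χ (s + (x : ZMod p))‖ * ‖χ (s + u + (x : ZMod p))‖ ≤ 1 * 1 :=
          mul_le_mul (RRB_norm χ _) (RRB_norm χ _) (norm_nonneg _) zero_le_one
      _ = 1 := one_mul 1
  refine (sum_le_sum h1).trans ?_
  rw [sum_const, card_range, nsmul_eq_mul, mul_one]

theorem RRB : RRB_stmt := by
  intro p _ χ ζ s h M hM hMh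
  have hM0 : (0 : ℝ) < M := by exact_mod_cast hM
  have hcr0 : ∀ u : ZMod p, 0 ≤ cr χ h s u := fun u => norm_nonneg _
  constructor
  · unfold RR
    refine div_nonneg (sum_nonneg fun m _ => mul_nonneg (Nat.cast_nonneg m) (sum_nonneg fun z _ => hcr0 _))
      hM0.le
  · unfold RR
    rw [div_le_iff₀ hM0]
    have h1 : ∀ m ∈ Ioc M (2 * M), (m : ℝ) * ∑ z ∈ Icc (-((h / m : ℕ) : ℤ)) ((h / m : ℕ) : ℤ),
        cr χ h s (ζ * ((m : ZMod p) * (z : ZMod p))) ≤ 3 * (h : ℝ) ^ 2 := by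
      intro m hm
      rw [mem_Ioc] at hm
      have h2 : ∑ z ∈ Icc (-((h / m : ℕ) : ℤ)) ((h / m : ℕ) : ℤ),
          cr χ h s (ζ * ((m : ZMod p) * (z : ZMod p))) ≤ ((2 * (h / m) + 1 : ℕ) : ℝ) * h := by
        have hc : (Icc (-((h / m : ℕ) : ℤ)) ((h / m : ℕ) : ℤ)).card = 2 * (h / m) + 1 := by
          rw [Int.card_Icc]
          omega
        refine (sum_le_sum fun z _ => RRB_cr χ h s _).trans ?_
        rw [sum_const, hc, nsmul_eq_mul]
      have h3 : m * (2 * (h / m) + 1) ≤ 3 * h := by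
        have h4 : m * (h / m) ≤ h := Nat.mul_div_le h m
        have h5 : m * (2 * (h / m) + 1) = 2 * (m * (h / m)) + m := by ring
        omega
      have h6 : (m : ℝ) * ((2 * (h / m) + 1 : ℕ) : ℝ) ≤ 3 * h := by exact_mod_cast h3
      have hh : (0 : ℝ) ≤ h := Nat.cast_nonneg h
      calc (m : ℝ) * ∑ z ∈ Icc (-((h / m : ℕ) : ℤ)) ((h / m : ℕ) : ℤ),
            cr χ h s (ζ * ((m : ZMod p) * (z : ZMod p)))
          ≤ (m : ℝ) * (((2 * (h / m) + 1 : ℕ) : ℝ) * h) :=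
            mul_le_mul_of_nonneg_left h2 (Nat.cast_nonneg m)
        _ = ((m : ℝ) * ((2 * (h / m) + 1 : ℕ) : ℝ)) * h := by ring
        _ ≤ (3 * h) * h := mul_le_mul_of_nonneg_right h6 hh
        _ = 3 * (h : ℝ) ^ 2 := by ring
    refine (sum_le_sum h1).trans ?_
    rw [sum_const, Nat.card_Ioc, nsmul_eq_mul, show 2 * M - M = M by omega, mul_comm]

end Pool.Agent.SPI
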